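import Pool.Agent.X252.SCT
import Pool.Agent.H447R3.SpDefs

/-!
# Group actions and the sign conjecture

Let a finite group `G` act on a smooth proper variety `X` of dimension `n`, and let `H^*` be a Weil
cohomology theory, for example crystalline cohomology. For a subgroup `H` of `G` we say that `C⁺` holds
for the quotient `X/H` if some rational cycle of codimension `n` on `X × X` acts on the even cohomology
of `X` as `∑_{h ∈ H} h^*` and as zero on the odd cohomology.

The elements `x` of the rational group ring such that `x^*` times the even projector is algebraic are
a two-sided ideal, which contains the annihilators of the even and of the odd cohomology. We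
draw the consequences:

* `C⁺(X)` holds if no irreducible rational representation of `G` occurs both in the even and in the
  odd cohomology of `X`;
* more generally, only the irreducible representations which occur in both matter: if all of them
  with `H`-fixed vectors have `D_j`-fixed vectors for some `j`, and `C⁺` holds for the `X/D_j`, then it
  holds for `X/H`;
* if `c` is an involution, then `C⁺(X)` holds if and only if it holds for `X/c` and for `X/[G,c]`; if `c`
  is contained in a nonabelian simple subgroup, if and only if it holds for `X/c`;
* if a subgroup `K` is partitioned into subgroups `D_j`, at least two, then `C⁺(X)` holds if and only if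
  it holds for all the `X/D_j`;
* if `C⁺(X)` does not hold, but it holds for all quotients by subgroups of prime order, then `G` has
  an irreducible rational representation, occurring both in the even and in the odd
  cohomology, in which no element different from one fixes a nonzero vector; so `G` is a
  Frobenius complement, its subgroups of order `p q` and its commutative subgroups are cyclic, and it
  has at most one involution.
-/

open CategoryTheory Pool.Agent.H914 Pool.Agent.H447 Pool.Agent.X252.GA Pool.Agent.X252.SCT
  Pool.Agent.X310.Mu

universe u v

namespace Pool.Agent.Results.MP_fd35e1_ag.GroupActions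

/-- **Group actions and the sign conjecture.** -/
theorem result {k : Type u} [Field k] {𝒱 : VarClass k} {ops : CycleOps 𝒱}
    (W : WeilCohomology.{u, v} ops) (X : 𝒱.Obj) {G : Type} [Group G] [Finite G]
    (a : G →* Aut X) :
    (NoCommon W a evens → SignStd W X) ∧
    (∀ (H : Subgroup G) (ι : Type) (D : ι → Subgroup G), DominatedOn W a evens H D →
      (∀ j, QuotientAlg W a (D j) evens) → QuotientAlg W a H evens) ∧
    (∀ c : G, c * c = 1 → (SignStd W X ↔ QuotientAlg W a (Subgroup.zpowers c) evens ∧
      QuotientAlg W a (comms c) evens)) ∧
    (∀ c : G, InSimple c → c ≠ 1 → c * c = 1 →
      (SignStd W X ↔ QuotientAlg W a (Subgroup.zpowers c) evens)) ∧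
    (∀ (ι : Type) (D : ι → Subgroup G) (K : Subgroup G), Partitions K D →
      (SignStd W X ↔ ∀ j, QuotientAlg W a (D j) evens)) ∧
    (¬ SignStd W X → (∀ P : Subgroup G, (Nat.card P).Prime → QuotientAlg W a P evens) →
      CommonFree W a evens ∧ CyclicSubgroups G) := by
  have h : DegreesAlg W X evens ↔ SignStd W X := by
    constructor
    · rintro ⟨P, hP, h⟩
      refine ⟨P, hP, fun j x hx => ?_⟩
      split_ifs with hj
      · exact (h j x hx).1 (show j ∈ {j | Even j} by simpa using hj)
      · exact (h j x hx).2 (show j ∉ {j | Even j} by simpa using hj)
    · rintro ⟨P, hP, h⟩
      refine ⟨P, hP, fun j x hx => ⟨fun hj => ?_, fun hj => ?_⟩⟩ <;> rw [cyAct]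
      · rw [h j x hx, if_pos (by simpa [evens] using hj)]
      · rw [h j x hx, if_neg (by simpa [evens] using hj)]
  rw [← h]
  exact main' W X a evens

end Pool.Agent.Results.MP_fd35e1_ag.GroupActions
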