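import Pool.Agent.X279.NK.Weil

/-!
# The conjecture `C⁺(X)` for two Weil cohomologies

Let `X` be a smooth proper variety over a field and `W`, `W'` two Weil cohomologies, for example
crystalline and `ℓ`-adic cohomology. If the projector onto the even cohomology is induced by a rational
cycle for `W` then the sum of the even Betti numbers and the sum of the odd Betti numbers of `X` are
smallest for `W`, and the projector onto the even cohomology is induced by a rational cycle for `W'` if
and only if the sums of the even Betti numbers agree.
-/

open Pool.Agent.H914 Pool.Agent.H447 Pool.Agent.X279.NK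

universe u v

namespace Pool.Agent.Results.MP_fd35e1_ag.IndependenceOfCohomology

/-- **Independence of the cohomology theory.** -/
theorem result {k : Type u} [Field k] {𝒱 : VarClass k} {ops : CycleOps 𝒱}
    (W W' : WeilCohomology.{u, v} ops) (X : 𝒱.Obj) (h : SignStd W X) :
    evenBetti W X ≤ evenBetti W' X ∧ oddBetti W X ≤ oddBetti W' X ∧
      (SignStd W' X ↔ evenBetti W X = evenBetti W' X) :=
  sign_independence W W' X h

end Pool.Agent.Results.MP_fd35e1_ag.IndependenceOfCohomology
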