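import Pool.Agent.TH133.PW.Ev

/-!
# The sign conjecture: even and odd classes can be separated one pair at a time

Let `X` be a smooth proper variety of dimension `n` over a field and `W` a Weil cohomology theory with
coefficient field `K` (for example crystalline cohomology). The following are equivalent.

1. The sign conjecture `C⁺(X)`: the projector onto the even cohomology is induced by an algebraic
   cycle with rational coefficients.
2. The same with a `K`-linear combination of algebraic cycles.
3. For all single classes `y` of even degree and `y'` of odd degree there is a `K`-linear combination
   `φ` of algebraic correspondences of degree zero, which may depend on `y` and `y'`, such that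
   `φ y = y` and `φ y' = 0`.
4. If the class `y × w + y' × w'` on `X × X` (`y`, `w` of even degrees with sum `2 n`, `y'`, `w'` of odd
   degrees with sum `2 n`) is orthogonal to all algebraic cycles of codimension `n` then
   `tr (y w) = 0`.
5. Every subspace of `H(X)` which is stable under the algebraic correspondences of degree zero is
   stable under the projector onto the even cohomology.

The proof is in the starting files `Pool/Agent/TH133/PW`, whose theorem had not been handed in.
-/

open Pool.Agent.H914 Pool.Agent.H447 Pool.Agent.TH133.PW

universe u v

namespace Pool.Agent.Results.MP_fd35e1_ag.ParitySeparation

/-- **The pointwise principle for the even Künneth projector.** -/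
theorem result {k : Type u} [Field k] {𝒱 : VarClass k} {ops : CycleOps 𝒱}
    (W : WeilCohomology.{u, v} ops) (X : 𝒱.Obj) :
    List.TFAE [SignStd W X, EvenProjInSpan (W.gr X) (cycleOperators W X X.dim),
      SeparatesParity (W.gr X) (cycleOperators W X X.dim), DetectsParity W X,
      StableParity (W.gr X) (cycleOperators W X X.dim)] :=
  sign_tfae W X

end Pool.Agent.Results.MP_fd35e1_ag.ParitySeparation
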